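import Pool.Agent.W808.KZ.Stm

/-!
# KZ-EX: connectivity of the closed region (helper347)
-/

set_option autoImplicit false

namespace Pool.Agent.W808.KZ
open H974 H906.Cyl
open Pool.Agent.H160R2.MU (Cel csq cpos prd shf BxS Bxs EP inSq PC Bad Cc)
open Pool.Agent.W801.OU

namespace TEX

/-! ## coarse geometry -/

/-- the arm of the box `0` -/
def Ar (k : ℕ) (c N x y : ℤ) : Prop :=
  (k = 0 ∧ x = c ∧ N ≤ y ∧ y ≤ N + 2) ∨
  (k = 0 ∧ y = N + 2 ∧ c ≤ x ∧ x - y ≤ 3 * N + 2) ∨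
  (k = 1 ∧ y = c ∧ N ≤ x ∧ x - y ≤ 3 * N + 2) ∨
  (k = 2 ∧ x = c ∧ y ≤ -N - 1 ∧ x - y ≤ 3 * N + 2) ∨
  (k = 3 ∧ y = c ∧ -N - 3 ≤ x ∧ x ≤ -N - 1) ∨
  (k = 3 ∧ x = -N - 3 ∧ y ≤ c ∧ x - y ≤ 3 * N + 2)

/-- free coarse squares which are not cut by the zipper `0`, in the window around the box `0` -/
def S (k : ℕ) (c N x y : ℤ) : Prop :=
  ¬ (-N ≤ x ∧ x < N ∧ -N ≤ y ∧ y < N) ∧ ¬ Ar k c N x y ∧ x - y < 3 * N ∧
    -(22 * N) ≤ x + y ∧ x + y ≤ 22 * N ∧ (x + y ≠ -1 ∨ 1 ≤ x - y)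

/-- adjacent free squares -/
def Ad (k : ℕ) (c N : ℤ) (a b : ℤ × ℤ) : Prop :=
  S k c N a.1 a.2 ∧ S k c N b.1 b.2 ∧ (b = (a.1 + 1, a.2) ∨ b = (a.1, a.2 + 1))

def CR (k : ℕ) (c N : ℤ) : ℤ × ℤ → ℤ × ℤ → Prop := Relation.EqvGen (Ad k c N)

variable {k : ℕ} {c N : ℤ}

theorem CR.rf (a : ℤ × ℤ) : CR k c N a a := Relation.EqvGen.refl _

theorem CR.tr {a b d : ℤ × ℤ} (h1 : CR k c N a b) (h2 : CR k c N b d) : CR k c N a d :=
  Relation.EqvGen.trans _ _ _ h1 h2

theorem CR.sy {a b : ℤ × ℤ} (h1 : CR k c N a b) : CR k c N b a :=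
  Relation.EqvGen.symm _ _ h1

theorem hl (y a : ℤ) (m : ℕ) (h : ∀ i : ℤ, 0 ≤ i → i ≤ m → S k c N (a + i) y) :
    CR k c N (a, y) (a + m, y) := by
  induction m with
  | zero => simpa using CR.rf _
  | succ m ih =>
    have h1 := ih fun i hi hi2 => h i hi (by push_cast; omega)
    refine h1.tr (Relation.EqvGen.rel _ _ ⟨?_, ?_, Or.inl ?_⟩)
    · exact h m (by omega) (by push_cast; omega)
    · have := h (m + 1 : ℕ) (by omega) (le_refl _)
      exact this
    · push_cast; simp only [Prod.mk.injEq, and_true]; ring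

theorem vl (x b : ℤ) (m : ℕ) (h : ∀ i : ℤ, 0 ≤ i → i ≤ m → S k c N x (b + i)) :
    CR k c N (x, b) (x, b + m) := by
  induction m with
  | zero => simpa using CR.rf _
  | succ m ih =>
    have h1 := ih fun i hi hi2 => h i hi (by push_cast; omega)
    refine h1.tr (Relation.EqvGen.rel _ _ ⟨?_, ?_, Or.inr ?_⟩)
    · exact h m (by omega) (by push_cast; omega)
    · have := h (m + 1 : ℕ) (by omega) (le_refl _)
      exact this
    · push_cast; simp only [Prod.mk.injEq, true_and]; ring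

/-- horizontal line -/
theorem hline (y a b : ℤ) (h : ∀ x, (a ≤ x ∧ x ≤ b) ∨ (b ≤ x ∧ x ≤ a) → S k c N x y) :
    CR k c N (a, y) (b, y) := by
  rcases le_total a b with hab | hab
  · have h1 := hl (k := k) (c := c) (N := N) y a (b - a).toNat (fun i h0 h1 => h _ (by omega))
    have e : a + ((b - a).toNat : ℤ) = b := by omega
    rwa [e] at h1
  · have h1 := hl (k := k) (c := c) (N := N) y b (a - b).toNat (fun i h0 h1 => h _ (by omega))
    have e : b + ((a - b).toNat : ℤ) = a := by omega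
    rw [e] at h1
    exact h1.sy

/-- vertical line -/
theorem vline (x a b : ℤ) (h : ∀ y, (a ≤ y ∧ y ≤ b) ∨ (b ≤ y ∧ y ≤ a) → S k c N x y) :
    CR k c N (x, a) (x, b) := by
  rcases le_total a b with hab | hab
  · have h1 := vl (k := k) (c := c) (N := N) x a (b - a).toNat (fun i h0 h1 => h _ (by omega))
    have e : a + ((b - a).toNat : ℤ) = b := by omega
    rwa [e] at h1
  · have h1 := vl (k := k) (c := c) (N := N) x b (a - b).toNat (fun i h0 h1 => h _ (by omega))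
    have e : b + ((a - b).toNat : ℤ) = a := by omega
    rw [e] at h1
    exact h1.sy

/-- diagonal line, first up -/
theorem dU (x y : ℤ) (m : ℕ) (h : ∀ i : ℤ, 0 ≤ i → i ≤ m → S k c N (x - i) (y + i))
    (h' : ∀ i : ℤ, 0 ≤ i → i < m → S k c N (x - i) (y + i + 1)) :
    CR k c N (x, y) (x - m, y + m) := by
  induction m with
  | zero => simpa using CR.rf _
  | succ m ih =>
    have h1 := ih (fun i hi hi2 => h i hi (by push_cast; omega))
      (fun i hi hi2 => h' i hi (by push_cast; omega))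
    have e1 : CR k c N (x - m, y + m) (x - m, y + m + 1) :=
      Relation.EqvGen.rel _ _ ⟨h m (by omega) (by push_cast; omega),
        h' m (by omega) (by push_cast; omega), Or.inr rfl⟩
    have e2 : CR k c N (x - (m + 1 : ℕ), y + (m + 1 : ℕ)) (x - m, y + m + 1) := by
      refine Relation.EqvGen.rel _ _ ⟨h (m + 1 : ℕ) (by omega) (le_refl _),
        h' m (by omega) (by push_cast; omega), Or.inl ?_⟩
      push_cast; simp only [Prod.mk.injEq]; constructor <;> ring
    exact (h1.tr e1).tr e2.sy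

/-- diagonal line, first left -/
theorem dL (x y : ℤ) (m : ℕ) (h : ∀ i : ℤ, 0 ≤ i → i ≤ m → S k c N (x - i) (y + i))
    (h' : ∀ i : ℤ, 0 ≤ i → i < m → S k c N (x - i - 1) (y + i)) :
    CR k c N (x, y) (x - m, y + m) := by
  induction m with
  | zero => simpa using CR.rf _
  | succ m ih =>
    have h1 := ih (fun i hi hi2 => h i hi (by push_cast; omega))
      (fun i hi hi2 => h' i hi (by push_cast; omega))
    have e1 : CR k c N (x - m - 1, y + m) (x - m, y + m) := by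
      refine Relation.EqvGen.rel _ _ ⟨h' m (by omega) (by push_cast; omega),
        h m (by omega) (by push_cast; omega), Or.inl ?_⟩
      simp only [Prod.mk.injEq, and_true]; ring
    have e2 : CR k c N (x - m - 1, y + m) (x - (m + 1 : ℕ), y + (m + 1 : ℕ)) := by
      refine Relation.EqvGen.rel _ _ ⟨h' m (by omega) (by push_cast; omega),
        h (m + 1 : ℕ) (by omega) (le_refl _), Or.inr ?_⟩
      push_cast; simp only [Prod.mk.injEq]; constructor <;> ring
    exact (h1.tr e1.sy).tr e2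

/-- admissible parameters -/
def Ok' (k : ℕ) (c N : ℤ) : Prop := k < 4 ∧ -N + 6 ≤ c ∧ c + 7 ≤ N ∧ 16 ≤ N

/-- the target on the right of the zipper -/
theorem DP (hk : Ok' k c N) (x y : ℤ) (hS : S k c N x y) (h0 : 0 ≤ x + y) (h1 : x + y ≤ 20 * N)
    (hy : N ≤ y) (hc : k = 0 → x < c ∨ N + 3 ≤ y) : CR k c N (x, y) (-(10 * N), 30 * N) := by
  obtain ⟨k4, c1, c2, hN⟩ := hk
  have hS' := hS
  obtain ⟨s1, s2, s3, s4, s5, s6⟩ := hS'
  have key : CR k c N (x, y) (x + y - 30 * N, 30 * N) := by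
    rcases le_total y (30 * N) with hle | hle
    · have h2 := dU (k := k) (c := c) (N := N) x y (30 * N - y).toNat ?_ ?_
      · have e : x - ((30 * N - y).toNat : ℤ) = x + y - 30 * N := by omega
        have e' : y + ((30 * N - y).toNat : ℤ) = 30 * N := by omega
        rwa [e, e'] at h2
      · intro i i0 i1
        unfold S Ar
        omega
      · intro i i0 i1
        unfold S Ar
        omega
    · have h2 := dU (k := k) (c := c) (N := N) (x + y - 30 * N) (30 * N) (y - 30 * N).toNat ?_ ?_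
      · have e : x + y - 30 * N - ((y - 30 * N).toNat : ℤ) = x := by omega
        have e' : 30 * N + ((y - 30 * N).toNat : ℤ) = y := by omega
        rw [e, e'] at h2
        exact h2.sy
      · intro i i0 i1
        unfold S Ar
        omega
      · intro i i0 i1
        unfold S Ar
        omega
  refine key.tr (hline _ _ _ ?_)
  intro x' hx'
  unfold S Ar
  omega

/-- the target on the left of the zipper -/
theorem DM (hk : Ok' k c N) (x y : ℤ) (hS : S k c N x y) (h0 : x + y ≤ -2) (h1 : -(20 * N) ≤ x + y)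
    (hx : x ≤ -N - 1) (hc : k = 3 → c < y ∨ x ≤ -N - 4) :
    CR k c N (x, y) (-(30 * N), 10 * N) := by
  obtain ⟨k4, c1, c2, hN⟩ := hk
  have hS' := hS
  obtain ⟨s1, s2, s3, s4, s5, s6⟩ := hS'
  have key : CR k c N (x, y) (-(30 * N), x + y + 30 * N) := by
    rcases le_total (-(30 * N)) x with hle | hle
    · have h2 := dL (k := k) (c := c) (N := N) x y (x + 30 * N).toNat ?_ ?_
      · have e : x - ((x + 30 * N).toNat : ℤ) = -(30 * N) := by omega
        have e' : y + ((x + 30 * N).toNat : ℤ) = x + y + 30 * N := by omega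
        rwa [e, e'] at h2
      · intro i i0 i1
        unfold S Ar
        omega
      · intro i i0 i1
        unfold S Ar
        omega
    · have h2 := dL (k := k) (c := c) (N := N) (-(30 * N)) (x + y + 30 * N)
        (-(30 * N) - x).toNat ?_ ?_
      · have e : -(30 * N) - ((-(30 * N) - x).toNat : ℤ) = x := by omega
        have e' : x + y + 30 * N + ((-(30 * N) - x).toNat : ℤ) = y := by omega
        rw [e, e'] at h2
        exact h2.sy
      · intro i i0 i1
        unfold S Ar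
        omega
      · intro i i0 i1
        unfold S Ar
        omega
  refine key.tr (vline _ _ _ ?_)
  intro y' hy'
  unfold S Ar
  omega

/-- the corner square `(N, -N-1)` -/
theorem KM (hk : Ok' k c N) (h : k = 0 ∨ k = 1) : CR k c N (N, -N - 1) (-(30 * N), 10 * N) := by
  have hk' := hk
  obtain ⟨k4, c1, c2, hN⟩ := hk'
  have h1 : CR k c N (N, -N - 1) (-N - 1, -N - 1) := by
    refine hline _ _ _ ?_
    intro x' hx'
    unfold S Ar
    omega
  refine h1.tr (DM hk _ _ ?_ (by omega) (by omega) (by omega) (by omega))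
  unfold S Ar
  omega

theorem KP (hk : Ok' k c N) (h : k = 2 ∨ k = 3) : CR k c N (N, -N - 1) (-(10 * N), 30 * N) := by
  have hk' := hk
  obtain ⟨k4, c1, c2, hN⟩ := hk'
  have h1 : CR k c N (N, -N - 1) (N, N) := by
    refine vline _ _ _ ?_
    intro x' hx'
    unfold S Ar
    omega
  refine h1.tr (DP hk _ _ ?_ (by omega) (by omega) (by omega) (by omega))
  unfold S Ar
  omega

theorem S_0 {x y : ℤ} : S 0 c N x y ↔ ¬ (-N ≤ x ∧ x < N ∧ -N ≤ y ∧ y < N) ∧
    ¬ ((x = c ∧ N ≤ y ∧ y ≤ N + 2) ∨ (y = N + 2 ∧ c ≤ x ∧ x - y ≤ 3 * N + 2)) ∧ x - y < 3 * N ∧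
    -(22 * N) ≤ x + y ∧ x + y ≤ 22 * N ∧ (x + y ≠ -1 ∨ 1 ≤ x - y) := by
  simp [S, Ar]

theorem S_1 {x y : ℤ} : S 1 c N x y ↔ ¬ (-N ≤ x ∧ x < N ∧ -N ≤ y ∧ y < N) ∧
    ¬ (y = c ∧ N ≤ x ∧ x - y ≤ 3 * N + 2) ∧ x - y < 3 * N ∧
    -(22 * N) ≤ x + y ∧ x + y ≤ 22 * N ∧ (x + y ≠ -1 ∨ 1 ≤ x - y) := by
  simp [S, Ar]

theorem S_2 {x y : ℤ} : S 2 c N x y ↔ ¬ (-N ≤ x ∧ x < N ∧ -N ≤ y ∧ y < N) ∧
    ¬ (x = c ∧ y ≤ -N - 1 ∧ x - y ≤ 3 * N + 2) ∧ x - y < 3 * N ∧
    -(22 * N) ≤ x + y ∧ x + y ≤ 22 * N ∧ (x + y ≠ -1 ∨ 1 ≤ x - y) := by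
  simp [S, Ar]

theorem S_3 {x y : ℤ} : S 3 c N x y ↔ ¬ (-N ≤ x ∧ x < N ∧ -N ≤ y ∧ y < N) ∧
    ¬ ((y = c ∧ -N - 3 ≤ x ∧ x ≤ -N - 1) ∨ (x = -N - 3 ∧ y ≤ c ∧ x - y ≤ 3 * N + 2)) ∧
    x - y < 3 * N ∧
    -(22 * N) ≤ x + y ∧ x + y ≤ 22 * N ∧ (x + y ≠ -1 ∨ 1 ≤ x - y) := by
  simp [S, Ar]

/-- **coarse connectivity** -/
theorem coarse (hk : Ok' k c N) (x y : ℤ) (hS : S k c N x y) (h0 : -(20 * N) ≤ x + y)
    (h1 : x + y ≤ 20 * N) :
    CR k c N (x, y) (-(10 * N), 30 * N) ∨ CR k c N (x, y) (-(30 * N), 10 * N) := by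
  have hk' := hk
  obtain ⟨k4, c1, c2, hN⟩ := hk'
  by_cases hp : 0 ≤ x + y ∧ N ≤ y ∧ (k = 0 → x < c ∨ N + 3 ≤ y)
  · exact Or.inl (DP hk x y hS hp.1 h1 hp.2.1 hp.2.2)
  by_cases hm : x + y ≤ -2 ∧ x ≤ -N - 1 ∧ (k = 3 → c < y ∨ x ≤ -N - 4)
  · exact Or.inr (DM hk x y hS hm.1 h0 hm.2.1 hm.2.2)
  obtain rfl | rfl | rfl | rfl : k = 0 ∨ k = 1 ∨ k = 2 ∨ k = 3 := by omega
  · -- top
    rw [S_0] at hS
    refine Or.inr (CR.tr ?_ (KM hk (by omega)))
    rcases le_or_gt N y with hy | hy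
    · have e1 : CR 0 c N (x, y) (N, y) := by
        refine hline _ _ _ fun x' hx' => ?_
        rw [S_0]
        omega
      refine e1.tr (vline _ _ _ fun y' hy' => ?_)
      rw [S_0]
      omega
    rcases le_or_gt N x with hx | hx
    · have e1 : CR 0 c N (x, y) (N, y) := by
        refine hline _ _ _ fun x' hx' => ?_
        rw [S_0]
        omega
      refine e1.tr (vline _ _ _ fun y' hy' => ?_)
      rw [S_0]
      omega
    · have e1 : CR 0 c N (x, y) (x, -N - 1) := by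
        refine vline _ _ _ fun y' hy' => ?_
        rw [S_0]
        omega
      refine e1.tr (hline _ _ _ fun x' hx' => ?_)
      rw [S_0]
      omega
  · -- right
    rw [S_1] at hS
    by_cases hc : c ≤ y ∧ N ≤ x
    · refine Or.inl ?_
      have e1 : CR 1 c N (x, y) (x, N) := by
        refine vline _ _ _ fun y' hy' => ?_
        rw [S_1]
        omega
      refine e1.tr (DP hk _ _ ?_ (by omega) (by omega) (by omega) (by omega))
      rw [S_1]
      omega
    refine Or.inr (CR.tr ?_ (KM hk (by omega)))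
    rcases le_or_gt N x with hx | hx
    · have e1 : CR 1 c N (x, y) (N, y) := by
        refine hline _ _ _ fun x' hx' => ?_
        rw [S_1]
        omega
      refine e1.tr (vline _ _ _ fun y' hy' => ?_)
      rw [S_1]
      omega
    · have e1 : CR 1 c N (x, y) (x, -N - 1) := by
        refine vline _ _ _ fun y' hy' => ?_
        rw [S_1]
        omega
      refine e1.tr (hline _ _ _ fun x' hx' => ?_)
      rw [S_1]
      omega
  · -- bottom
    rw [S_2] at hS
    by_cases hc : x ≤ c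
    · refine Or.inr ?_
      have e1 : CR 2 c N (x, y) (-N - 1, y) := by
        refine hline _ _ _ fun x' hx' => ?_
        rw [S_2]
        omega
      refine e1.tr (DM hk _ _ ?_ (by omega) (by omega) (by omega) (by omega))
      rw [S_2]
      omega
    refine Or.inl (CR.tr ?_ (KP hk (by omega)))
    rcases le_or_gt N x with hx | hx
    · have e1 : CR 2 c N (x, y) (N, y) := by
        refine hline _ _ _ fun x' hx' => ?_
        rw [S_2]
        omega
      refine e1.tr (vline _ _ _ fun y' hy' => ?_)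
      rw [S_2]
      omega
    · have e1 : CR 2 c N (x, y) (x, -N - 1) := by
        refine vline _ _ _ fun y' hy' => ?_
        rw [S_2]
        omega
      refine e1.tr (hline _ _ _ fun x' hx' => ?_)
      rw [S_2]
      omega
  · -- left
    rw [S_3] at hS
    refine Or.inl (CR.tr ?_ (KP hk (by omega)))
    rcases le_or_gt N x with hx | hx
    · have e1 : CR 3 c N (x, y) (N, y) := by
        refine hline _ _ _ fun x' hx' => ?_
        rw [S_3]
        omega
      refine e1.tr (vline _ _ _ fun y' hy' => ?_)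
      rw [S_3]
      omega
    · have e1 : CR 3 c N (x, y) (x, -N - 1) := by
        refine vline _ _ _ fun y' hy' => ?_
        rw [S_3]
        omega
      refine e1.tr (hline _ _ _ fun x' hx' => ?_)
      rw [S_3]
      omega

/-! ## faces -/

/-- the normal form of the point of a face -/
noncomputable def nf (n : ℕ) (p : ℤ × ℤ) : ℤ × ℤ :=
  nrm (Zn n) (p.1 - p.2) (p.1 + p.2 + 1) (p.1 - p.2)

theorem mem_Zn {n : ℕ} {j : ℤ} : j ∈ Zn n ↔ ∃ q : ℤ, j = 2 * (n * q) := by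
  constructor
  · intro h
    obtain ⟨q, hq⟩ := Int.dvd_of_emod_eq_zero h
    exact ⟨q, by rw [hq]; push_cast; ring⟩
  · rintro ⟨q, rfl⟩
    show (2 * (n * q) : ℤ) % ((2 * n : ℕ) : ℤ) = 0
    have : (2 * (n * q) : ℤ) = ((2 * n : ℕ) : ℤ) * q := by push_cast; ring
    rw [this]
    exact Int.mul_emod_right _ _

theorem nrm_eq (n : ℕ) (x y d : ℤ) (hd : d = x - y ∨ d = x - y - 1) :
    nrm (Zn n) d (x + y + 1) (x - y) = nf n (x, y) := by
  unfold nf nrm
  by_cases h : x + y + 1 ∈ Zn n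
  · obtain ⟨q, hq⟩ := mem_Zn.1 h
    have h2 : d < 0 ↔ x - y < 0 := by
      rcases hd with rfl | rfl
      · rfl
      · constructor <;> intro h3 <;> omega
    simp only [h, and_true, h2]
  · simp only [h, and_false, if_false]

theorem lz_h {n : ℕ} {B : Set Edg} (x y : ℤ) (hB : ((x, y, false) : Edg) ∈ B)
    (hz : ((x, y, false) : Edg) ∉ zp (Zn n)) :
    LZ (Zn n) B ∅ (nf n (x - 1, y)) (nf n (x, y)) := by
  refine ⟨(x, y, false), hB, hz, Or.inr ⟨fun h => h, ?_⟩⟩
  have hd : dco ((x, y, false) : Edg) = x - y - 1 := by simp [dco]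
  have h := Dg.rise (Z := Zn n) (c := 1) (e := ((x, y, false) : Edg))
    (by rw [hd]; show (x + y + (x - y - 1)) % 2 = 1; omega)
  rw [hd] at h
  have e1 : nrm (Zn n) (x - y - 1) (x + y) (x - y - 1) = nf n (x - 1, y) := by
    have := nrm_eq n (x - 1) y (x - y - 1) (by omega)
    have e : x - 1 + y + 1 = x + y := by ring
    have e' : x - 1 - y = x - y - 1 := by ring
    rw [e, e'] at this
    exact this
  have e2 : nrm (Zn n) (x - y - 1) (x + y + 1) (x - y - 1 + 1) = nf n (x, y) := by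
    have := nrm_eq n x y (x - y - 1) (by omega)
    have e' : x - y - 1 + 1 = x - y := by ring
    rw [e']
    exact this
  rw [← e1, ← e2]
  exact h

theorem lz_v {n : ℕ} {B : Set Edg} (x y : ℤ) (hB : ((x, y, true) : Edg) ∈ B)
    (hz : ((x, y, true) : Edg) ∉ zp (Zn n)) :
    LZ (Zn n) B ∅ (nf n (x, y - 1)) (nf n (x, y)) := by
  refine ⟨(x, y, true), hB, hz, Or.inr ⟨fun h => h, ?_⟩⟩
  have hd : dco ((x, y, true) : Edg) = x - y := by simp [dco]
  have h := Dg.fall (Z := Zn n) (c := 1) (e := ((x, y, true) : Edg))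
    (by rw [hd]; show (x + y + (x - y)) % 2 = 1 - 1; omega)
  rw [hd] at h
  have e1 : nrm (Zn n) (x - y) (x + y) (x - y + 1) = nf n (x, y - 1) := by
    have := nrm_eq n x (y - 1) (x - y) (by omega)
    have e : x + (y - 1) + 1 = x + y := by ring
    have e' : x - (y - 1) = x - y + 1 := by ring
    rw [e, e'] at this
    exact this
  have e2 : nrm (Zn n) (x - y) (x + y + 1) (x - y) = nf n (x, y) :=
    nrm_eq n x y (x - y) (by omega)
  rw [← e1, ← e2]
  exact h

theorem dv {r z y : ℤ} (h0 : 0 < r) (h1 : r * z ≤ y) (h2 : y < r * z + r) : y / r = z := by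
  apply le_antisymm
  · exact Int.lt_add_one_iff.1 (Int.ediv_lt_of_lt_mul h0 (by linarith))
  · exact Int.le_ediv_of_mul_le h0 (by linarith)

/-- an edge between two faces which are not in `P` -/
theorem nEP_h {r : ℕ} (hr : 0 < r) {P : Set (ℤ × ℤ)} (x y : ℤ)
    (h1 : ((x - 1) / (r : ℤ), y / (r : ℤ)) ∉ P) (h2 : (x / (r : ℤ), y / (r : ℤ)) ∉ P) :
    ((x, y, false) : Edg) ∉ EP r P := by
  rintro ⟨z, hz, he⟩
  unfold H12S.sqE at he
  rw [mem_RE_false] at he
  obtain ⟨e1, e2, e3, e4⟩ := he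
  have hr' : (0 : ℤ) < r := by exact_mod_cast hr
  have hy := dv hr' e3 e4
  rcases eq_or_lt_of_le e2 with h | h
  · have hx : (x - 1) / (r : ℤ) = z.1 := dv hr' (by omega) (by omega)
    rw [hx, hy] at h1
    exact h1 hz
  · have hx : x / (r : ℤ) = z.1 := dv hr' e1 h
    rw [hx, hy] at h2
    exact h2 hz

theorem nEP_v {r : ℕ} (hr : 0 < r) {P : Set (ℤ × ℤ)} (x y : ℤ)
    (h1 : (x / (r : ℤ), (y - 1) / (r : ℤ)) ∉ P) (h2 : (x / (r : ℤ), y / (r : ℤ)) ∉ P) :
    ((x, y, true) : Edg) ∉ EP r P := by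
  rintro ⟨z, hz, he⟩
  unfold H12S.sqE at he
  rw [mem_RE_true] at he
  obtain ⟨e1, e2, e3, e4⟩ := he
  have hr' : (0 : ℤ) < r := by exact_mod_cast hr
  have hx := dv hr' e1 e2
  rcases eq_or_lt_of_le e4 with h | h
  · have hy : (y - 1) / (r : ℤ) = z.2 := dv hr' (by omega) (by omega)
    rw [hx, hy] at h1
    exact h1 hz
  · have hy : y / (r : ℤ) = z.2 := dv hr' e3 h
    rw [hx, hy] at h2
    exact h2 hz

/-- edges of a face of a square of `P` are in `EP r P` -/
theorem iEP_h {r : ℕ} (hr : 0 < r) {P : Set (ℤ × ℤ)} (x y : ℤ)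
    (h : ((x - 1) / (r : ℤ), y / (r : ℤ)) ∈ P ∨ (x / (r : ℤ), y / (r : ℤ)) ∈ P) :
    ((x, y, false) : Edg) ∈ EP r P := by
  have hr' : (0 : ℤ) < r := by exact_mod_cast hr
  have a1 := Int.mul_ediv_self_le (x := y) (k := (r : ℤ)) hr'.ne'
  have a2 := Int.lt_mul_ediv_self_add (x := y) hr'
  rcases h with h | h
  · refine ⟨_, h, ?_⟩
    unfold H12S.sqE
    rw [mem_RE_false]
    have b1 := Int.mul_ediv_self_le (x := x - 1) (k := (r : ℤ)) hr'.ne'
    have b2 := Int.lt_mul_ediv_self_add (x := x - 1) hr'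
    dsimp only
    exact ⟨by omega, by omega, a1, a2⟩
  · refine ⟨_, h, ?_⟩
    unfold H12S.sqE
    rw [mem_RE_false]
    have b1 := Int.mul_ediv_self_le (x := x) (k := (r : ℤ)) hr'.ne'
    have b2 := Int.lt_mul_ediv_self_add (x := x) hr'
    dsimp only
    exact ⟨by omega, by omega, a1, a2⟩

theorem iEP_v {r : ℕ} (hr : 0 < r) {P : Set (ℤ × ℤ)} (x y : ℤ)
    (h : (x / (r : ℤ), (y - 1) / (r : ℤ)) ∈ P ∨ (x / (r : ℤ), y / (r : ℤ)) ∈ P) :
    ((x, y, true) : Edg) ∈ EP r P := by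
  have hr' : (0 : ℤ) < r := by exact_mod_cast hr
  have a1 := Int.mul_ediv_self_le (x := x) (k := (r : ℤ)) hr'.ne'
  have a2 := Int.lt_mul_ediv_self_add (x := x) hr'
  rcases h with h | h
  · refine ⟨_, h, ?_⟩
    unfold H12S.sqE
    rw [mem_RE_true]
    have b1 := Int.mul_ediv_self_le (x := y - 1) (k := (r : ℤ)) hr'.ne'
    have b2 := Int.lt_mul_ediv_self_add (x := y - 1) hr'
    dsimp only
    exact ⟨a1, a2, by omega, by omega⟩
  · refine ⟨_, h, ?_⟩
    unfold H12S.sqE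
    rw [mem_RE_true]
    have b1 := Int.mul_ediv_self_le (x := y) (k := (r : ℤ)) hr'.ne'
    have b2 := Int.lt_mul_ediv_self_add (x := y) hr'
    dsimp only
    exact ⟨a1, a2, by omega, by omega⟩

/-- free squares of the window (they may be cut) -/
def L (k : ℕ) (c N x y : ℤ) : Prop :=
  ¬ (-N ≤ x ∧ x < N ∧ -N ≤ y ∧ y < N) ∧ ¬ Ar k c N x y ∧ x - y < 3 * N ∧
    -(22 * N) ≤ x + y ∧ x + y ≤ 22 * N

theorem L_of_S {k : ℕ} {c N x y : ℤ} (h : S k c N x y) : L k c N x y :=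
  ⟨h.1, h.2.1, h.2.2.1, h.2.2.2.1, h.2.2.2.2.1⟩

theorem prdz (N : ℕ) : ((prd N N : ℕ) : ℤ) = 20 * N := by
  unfold prd; push_cast; ring

theorem key1 {N : ℕ} (hN : 16 ≤ N) (u s σ : ℤ) (l4 : -(22 * (N : ℤ)) ≤ u) (l5 : u ≤ 22 * N)
    (h1 : -(6 * (N : ℤ)) ≤ u - 40 * (N * (s - σ))) (h2 : u - 40 * (N * (s - σ)) ≤ 6 * N) :
    s = σ := by
  by_contra hne
  have hN' : (16 : ℤ) ≤ N := by exact_mod_cast hN
  rcases lt_or_gt_of_ne hne with h | h
  · have : (N : ℤ) * (s - σ) ≤ N * (-1) := by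
      apply mul_le_mul_of_nonneg_left <;> omega
    omega
  · have : (N : ℤ) * 1 ≤ N * (s - σ) := by
      apply mul_le_mul_of_nonneg_left <;> omega
    omega

/-- free local squares are free -/
theorem gl {N : ℕ} {C : Cel} (hN : 16 ≤ N) (hC : AdmZ N C) (σ x y : ℤ) (h : L C.1 C.2 N x y) :
    (x + σ * (20 * N), y + σ * (20 * N)) ∉ Bxs N N ∧
      (x + σ * (20 * N), y + σ * (20 * N)) ∉ TubZ N C := by
  obtain ⟨l1, l2, l3, l4, l5⟩ := h
  obtain ⟨c1, c2, c3⟩ := hC
  have hN' : (16 : ℤ) ≤ N := by exact_mod_cast hN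
  constructor
  · rintro ⟨s, h1, h2, h3, h4⟩
    simp only [shf, prdz] at h1 h2 h3 h4
    have e : x + σ * (20 * N) - s * (20 * N) = x - 20 * (N * (s - σ)) := by ring
    have e' : y + σ * (20 * N) - s * (20 * N) = y - 20 * (N * (s - σ)) := by ring
    rw [e] at h1 h2
    rw [e'] at h3 h4
    have hs := key1 hN (x + y) s σ l4 l5 (by omega) (by omega)
    subst hs
    simp only [sub_self, mul_zero, sub_zero] at h1 h2 h3 h4
    exact l1 ⟨h1, h2, h3, h4⟩
  · rintro (⟨h1, h2⟩ | ⟨s, hs⟩)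
    · simp only at h1 h2
      omega
    · have hs' : Ar C.1 C.2 N (shf N N s (x + σ * (20 * N), y + σ * (20 * N))).1
          (shf N N s (x + σ * (20 * N), y + σ * (20 * N))).2 := hs
      simp only [shf, prdz] at hs'
      have e : x + σ * (20 * N) - s * (20 * N) = x - 20 * (N * (s - σ)) := by ring
      have e' : y + σ * (20 * N) - s * (20 * N) = y - 20 * (N * (s - σ)) := by ring
      rw [e, e'] at hs'
      have hs2 := hs'
      unfold Ar at hs2
      have hsσ := key1 hN (x + y) s σ l4 l5 (by omega) (by omega)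
      subst hsσ
      simp only [sub_self, mul_zero, sub_zero] at hs'
      exact l2 hs'

/-- local coordinates from a free square -/
theorem lg {N : ℕ} {C : Cel} (σ x y : ℤ)
    (h1 : (x + σ * (20 * N), y + σ * (20 * N)) ∉ Bxs N N)
    (h2 : (x + σ * (20 * N), y + σ * (20 * N)) ∉ TubZ N C) (h3 : x - y < 3 * N)
    (h4 : -(22 * (N : ℤ)) ≤ x + y) (h5 : x + y ≤ 22 * N) : L C.1 C.2 N x y := by
  refine ⟨fun h => h1 ⟨σ, ?_⟩, fun h => h2 (Or.inr ⟨σ, ?_⟩), h3, h4, h5⟩
  · show _ ∧ _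
    simp only [shf, prdz]
    have e : x + σ * (20 * N) - σ * (20 * N) = x := by ring
    have e' : y + σ * (20 * N) - σ * (20 * N) = y := by ring
    rw [e, e']
    exact h
  · show Ar C.1 C.2 N (shf N N σ (x + σ * (20 * N), y + σ * (20 * N))).1
          (shf N N σ (x + σ * (20 * N), y + σ * (20 * N))).2
    simp only [shf, prdz]
    have e : x + σ * (20 * N) - σ * (20 * N) = x := by ring
    have e' : y + σ * (20 * N) - σ * (20 * N) = y := by ring
    rw [e, e']
    exact h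

/-! ## moves -/

section moves
variable {N r : ℕ} {C : Cel} {n : ℕ}

/-- connection of local faces -/
def Cn (N r : ℕ) (C : Cel) (n : ℕ) (σ : ℤ) (p q : ℤ × ℤ) : Prop :=
  RZ (Zn n) {e | e ∉ EB N r ∧ e ∉ ET N r C} ∅ (nf n (p.1 + σ * n, p.2 + σ * n))
    (nf n (q.1 + σ * n, q.2 + σ * n))

theorem Cn.rf {σ : ℤ} (p : ℤ × ℤ) : Cn N r C n σ p p := Relation.EqvGen.refl _

theorem Cn.tr {σ : ℤ} {p q u : ℤ × ℤ} (h1 : Cn N r C n σ p q) (h2 : Cn N r C n σ q u) :
    Cn N r C n σ p u := Relation.EqvGen.trans _ _ _ h1 h2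

theorem Cn.sy {σ : ℤ} {p q : ℤ × ℤ} (h1 : Cn N r C n σ p q) : Cn N r C n σ q p :=
  Relation.EqvGen.symm _ _ h1

theorem sh_div (hr : 0 < r) (hn : n = prd N N * r) (σ x : ℤ) :
    (x + σ * n) / (r : ℤ) = x / (r : ℤ) + σ * (20 * N) := by
  have : x + σ * n = x + (σ * (20 * N)) * r := by
    rw [hn]; push_cast; rw [prdz]; ring
  rw [this, Int.add_mul_ediv_right _ _ (by omega)]

theorem mvh (hN : 16 ≤ N) (hr : 0 < r) (hC : AdmZ N C) (hn : n = prd N N * r) (σ x y : ℤ)
    (h1 : L C.1 C.2 N ((x - 1) / (r : ℤ)) (y / (r : ℤ)))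
    (h2 : L C.1 C.2 N (x / (r : ℤ)) (y / (r : ℤ)))
    (hz : x + y + 1 ∈ Zn n → 1 ≤ x - y) : Cn N r C n σ (x - 1, y) (x, y) := by
  have g1 := gl hN hC σ _ _ h1
  have g2 := gl hN hC σ _ _ h2
  rw [← sh_div hr hn, ← sh_div hr hn] at g1 g2
  have e : x - 1 + σ * n = x + σ * n - 1 := by ring
  rw [e] at g1
  have hh := lz_h (n := n) (B := {e | e ∉ EB N r ∧ e ∉ ET N r C}) (x + σ * n) (y + σ * n)
    ⟨nEP_h hr _ _ g1.1 g2.1, nEP_h hr _ _ g1.2 g2.2⟩ ?_
  · rw [← e] at hh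
    exact Relation.EqvGen.rel _ _ hh
  · rintro ⟨z1, z2⟩
    have hd : dco ((x + σ * n, y + σ * n, false) : Edg) = x - y - 1 := by simp [dco]
    rw [hd] at z1
    have z3 : x + y + 1 ∈ Zn n := by
      obtain ⟨q, hq⟩ := mem_Zn.1 z2
      simp only at hq
      refine mem_Zn.2 ⟨q - σ, ?_⟩
      linear_combination hq
    have := hz z3
    omega

theorem mvv (hN : 16 ≤ N) (hr : 0 < r) (hC : AdmZ N C) (hn : n = prd N N * r) (σ x y : ℤ)
    (h1 : L C.1 C.2 N (x / (r : ℤ)) ((y - 1) / (r : ℤ)))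
    (h2 : L C.1 C.2 N (x / (r : ℤ)) (y / (r : ℤ)))
    (hz : x + y + 1 ∈ Zn n → 1 ≤ x - y) : Cn N r C n σ (x, y - 1) (x, y) := by
  have g1 := gl hN hC σ _ _ h1
  have g2 := gl hN hC σ _ _ h2
  rw [← sh_div hr hn, ← sh_div hr hn] at g1 g2
  have e : y - 1 + σ * n = y + σ * n - 1 := by ring
  rw [e] at g1
  have hh := lz_v (n := n) (B := {e | e ∉ EB N r ∧ e ∉ ET N r C}) (x + σ * n) (y + σ * n)
    ⟨nEP_v hr _ _ g1.1 g2.1, nEP_v hr _ _ g1.2 g2.2⟩ ?_
  · rw [← e] at hh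
    exact Relation.EqvGen.rel _ _ hh
  · rintro ⟨z1, z2⟩
    have hd : dco ((x + σ * n, y + σ * n, true) : Edg) = x - y := by simp [dco]
    rw [hd] at z1
    have z3 : x + y + 1 ∈ Zn n := by
      obtain ⟨q, hq⟩ := mem_Zn.1 z2
      simp only at hq
      refine mem_Zn.2 ⟨q - σ, ?_⟩
      linear_combination hq
    have := hz z3
    omega

/-- only the zipper `0` in the window -/
theorem Zn_win (_hr : 0 < r) (hn : n = prd N N * r) {j : ℤ} (hj : j ∈ Zn n)
    (h1 : -(40 * (N * r : ℕ) : ℤ) < j) (h2 : j < 40 * (N * r : ℕ)) : j = 0 := by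
  obtain ⟨q, hq⟩ := mem_Zn.1 hj
  have hn' : (n : ℤ) = 20 * (N * r : ℕ) := by
    rw [hn]; push_cast; rw [prdz]; ring
  rw [hn'] at hq
  set A : ℤ := ((N * r : ℕ) : ℤ) with hA
  have hA0 : 0 ≤ A := by positivity
  have hq' : j = 40 * (A * q) := by rw [hq]; ring
  have : q = 0 := by
    by_contra hne
    rcases lt_or_gt_of_ne hne with h | h
    · have : A * q ≤ A * (-1) := by
        apply mul_le_mul_of_nonneg_left <;> omega
      omega
    · have : A * 1 ≤ A * q := by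
        apply mul_le_mul_of_nonneg_left <;> omega
      omega
  rw [hq, this]; ring

/-- bounds of a face by its coarse square -/
theorem cb (hr : 0 < r) (x : ℤ) : (r : ℤ) * (x / (r : ℤ)) ≤ x ∧ x < r * (x / (r : ℤ)) + r := by
  have hr' : (0 : ℤ) < r := by exact_mod_cast hr
  exact ⟨Int.mul_ediv_self_le (x := x) (k := (r : ℤ)) hr'.ne', Int.lt_mul_ediv_self_add (x := x) hr'⟩

theorem nz (hN : 16 ≤ N) (hr : 0 < r) (hn : n = prd N N * r) {k : ℕ} {c : ℤ} (x y : ℤ)
    (hS : S k c N (x / (r : ℤ)) (y / (r : ℤ))) : x + y + 1 ∈ Zn n → 1 ≤ x - y := by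
  intro hj
  obtain ⟨-, -, -, s4, s5, s6⟩ := hS
  obtain ⟨a1, a2⟩ := cb hr x
  obtain ⟨b1, b2⟩ := cb hr y
  set u := x / (r : ℤ) with hu
  set v := y / (r : ℤ) with hv
  have hr' : (1 : ℤ) ≤ r := by exact_mod_cast hr
  have hN' : (16 : ℤ) ≤ N := by exact_mod_cast hN
  have e1 : (r : ℤ) * (u + v) ≤ r * (22 * N) := mul_le_mul_of_nonneg_left s5 (by omega)
  have e2 : (r : ℤ) * (-(22 * N)) ≤ r * (u + v) := mul_le_mul_of_nonneg_left s4 (by omega)
  have e3 : (r : ℤ) * 16 ≤ r * N := mul_le_mul_of_nonneg_left hN' (by omega)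
  have e4 : (r : ℤ) * (u + v) = r * u + r * v := by ring
  have e5 : (r : ℤ) * (22 * N) = 22 * (r * N) := by ring
  have e6 : (r : ℤ) * (-(22 * N)) = -(22 * (r * N)) := by ring
  have e7 : ((N * r : ℕ) : ℤ) = r * N := by push_cast; ring
  have h0 := Zn_win hr hn hj (by rw [e7]; omega) (by rw [e7]; omega)
  have h1 : u + v = -1 := by
    by_contra hne
    rcases lt_or_gt_of_ne hne with h | h
    · have : (r : ℤ) * (u + v) ≤ r * (-2) := mul_le_mul_of_nonneg_left (by omega) (by omega)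
      omega
    · have : (r : ℤ) * 0 ≤ r * (u + v) := mul_le_mul_of_nonneg_left (by omega) (by omega)
      omega
  have h2 : 1 ≤ u - v := by omega
  have h3 : (r : ℤ) * 1 ≤ r * (u - v) := mul_le_mul_of_nonneg_left h2 (by omega)
  have h4 : (r : ℤ) * (u - v) = r * u - r * v := by ring
  omega

theorem fh (hN : 16 ≤ N) (hr : 0 < r) (hC : AdmZ N C) (hn : n = prd N N * r) (σ y a : ℤ) (m : ℕ)
    (h : ∀ i : ℤ, 0 ≤ i → i ≤ m → S C.1 C.2 N ((a + i) / (r : ℤ)) (y / (r : ℤ))) :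
    Cn N r C n σ (a, y) (a + m, y) := by
  induction m with
  | zero => simpa using Cn.rf _
  | succ m ih =>
    have h1 := ih fun i hi hi2 => h i hi (by push_cast; omega)
    have h2 := h m (by omega) (by push_cast; omega)
    have h3 := h (m + 1 : ℕ) (by omega) (le_refl _)
    have e : a + (m : ℤ) = a + (m + 1 : ℕ) - 1 := by push_cast; ring
    refine h1.tr ?_
    have := mvh hN hr hC hn σ (a + (m + 1 : ℕ)) y (by rw [← e]; exact L_of_S h2) (L_of_S h3)
      (nz hN hr hn _ _ h3)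
    rw [← e] at this
    exact this

theorem fv (hN : 16 ≤ N) (hr : 0 < r) (hC : AdmZ N C) (hn : n = prd N N * r) (σ x b : ℤ) (m : ℕ)
    (h : ∀ i : ℤ, 0 ≤ i → i ≤ m → S C.1 C.2 N (x / (r : ℤ)) ((b + i) / (r : ℤ))) :
    Cn N r C n σ (x, b) (x, b + m) := by
  induction m with
  | zero => simpa using Cn.rf _
  | succ m ih =>
    have h1 := ih fun i hi hi2 => h i hi (by push_cast; omega)
    have h2 := h m (by omega) (by push_cast; omega)
    have h3 := h (m + 1 : ℕ) (by omega) (le_refl _)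
    have e : b + (m : ℤ) = b + (m + 1 : ℕ) - 1 := by push_cast; ring
    refine h1.tr ?_
    have := mvv hN hr hC hn σ x (b + (m + 1 : ℕ)) (by rw [← e]; exact L_of_S h2) (L_of_S h3)
      (nz hN hr hn _ _ h3)
    rw [← e] at this
    exact this

/-- the corner of a coarse square is connected to all its faces -/
theorem toRep (hN : 16 ≤ N) (hr : 0 < r) (hC : AdmZ N C) (hn : n = prd N N * r) (σ x y : ℤ)
    (hS : S C.1 C.2 N (x / (r : ℤ)) (y / (r : ℤ))) :
    Cn N r C n σ (r * (x / (r : ℤ)), r * (y / (r : ℤ))) (x, y) := by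
  have hr' : (0 : ℤ) < r := by exact_mod_cast hr
  obtain ⟨a1, a2⟩ := cb hr x
  obtain ⟨b1, b2⟩ := cb hr y
  set u := x / (r : ℤ) with hu
  set v := y / (r : ℤ) with hv
  have h1 := fh hN hr hC hn σ (r * v) (r * u) (x - r * u).toNat ?_
  · have h2 := fv hN hr hC hn σ x (r * v) (y - r * v).toNat ?_
    · have e1 : r * u + ((x - r * u).toNat : ℤ) = x := by omega
      have e2 : r * v + ((y - r * v).toNat : ℤ) = y := by omega
      rw [e1] at h1
      rw [e2] at h2
      exact h1.tr h2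
    · intro i i0 i1
      rw [← hu, dv (z := v) hr' (by omega) (by omega)]
      exact hS
  · intro i i0 i1
    rw [dv (z := u) hr' (by omega) (by omega), dv (z := v) hr' (by omega) (by omega)]
    exact hS

/-- coarse connections lift to faces -/
theorem lift (hN : 16 ≤ N) (hr : 0 < r) (hC : AdmZ N C) (hn : n = prd N N * r) (σ : ℤ)
    {a b : ℤ × ℤ} (h : CR C.1 C.2 N a b) :
    Cn N r C n σ (r * a.1, r * a.2) (r * b.1, r * b.2) := by
  have hr' : (0 : ℤ) < r := by exact_mod_cast hr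
  induction h with
  | rel a b h =>
    obtain ⟨h1, h2, rfl | rfl⟩ := h
    · have h3 := fh hN hr hC hn σ (r * a.2) (r * a.1) r ?_
      · have e : (r : ℤ) * a.1 + r = r * (a.1 + 1) := by ring
        rw [e] at h3
        exact h3
      · intro i i0 i1
        rw [dv (z := a.2) (y := r * a.2) hr' (by omega) (by omega)]
        rcases eq_or_lt_of_le i1 with h | h
        · have e : (r : ℤ) * (a.1 + 1) = r * a.1 + r := by ring
          rw [dv (z := a.1 + 1) hr' (by omega) (by omega)]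
          exact h2
        · rw [dv (z := a.1) hr' (by omega) (by omega)]
          exact h1
    · have h3 := fv hN hr hC hn σ (r * a.1) (r * a.2) r ?_
      · have e : (r : ℤ) * a.2 + r = r * (a.2 + 1) := by ring
        rw [e] at h3
        exact h3
      · intro i i0 i1
        rw [dv (z := a.1) (y := r * a.1) hr' (by omega) (by omega)]
        rcases eq_or_lt_of_le i1 with h | h
        · have e : (r : ℤ) * (a.2 + 1) = r * a.2 + r := by ring
          rw [dv (z := a.2 + 1) hr' (by omega) (by omega)]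
          exact h2
        · rw [dv (z := a.2) hr' (by omega) (by omega)]
          exact h1
  | refl a => exact Cn.rf _
  | symm a b _ ih => exact ih.sy
  | trans a b d _ _ ih1 ih2 => exact ih1.tr ih2

theorem fineS (hN : 16 ≤ N) (hr : 0 < r) (hC : AdmZ N C) (hn : n = prd N N * r) (σ x y : ℤ)
    (hS : S C.1 C.2 N (x / (r : ℤ)) (y / (r : ℤ)))
    (h0 : -(20 * (N : ℤ)) ≤ x / (r : ℤ) + y / (r : ℤ))
    (h1 : x / (r : ℤ) + y / (r : ℤ) ≤ 20 * (N : ℤ)) :
    Cn N r C n σ (x, y) (r * (-(10 * N)), r * (30 * N)) ∨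
      Cn N r C n σ (x, y) (r * (-(30 * N)), r * (10 * N)) := by
  have hN' : (16 : ℤ) ≤ N := by exact_mod_cast hN
  have hOk : Ok' C.1 C.2 N := ⟨hC.1, hC.2.1, hC.2.2, hN'⟩
  have hrep := toRep hN hr hC hn σ x y hS
  rcases coarse hOk _ _ hS h0 h1 with h | h
  · have h2 := lift hN hr hC hn σ h
    exact Or.inl (hrep.sy.tr h2)
  · have h2 := lift hN hr hC hn σ h
    exact Or.inr (hrep.sy.tr h2)

end moves

end TEX

end Pool.Agent.W808.KZ
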